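import Pool.Agent.Helper27.OT.Defs

/-!
# MP_2857a5_co : module RL (roles)
-/

set_option autoImplicit false

open Finset
open scoped Classical

namespace OT

noncomputable section

section Rl

variable {n : ℕ} {T : PTree n} {U : Finset (Fin n)} {R : Type}

theorem Roles.cls_card (S : Roles T U R) {v : Fin n} (hv : v ∉ U) (hp : T.par v ∉ U) :
    (S.cls (S.role v)).card = (S.cls (S.role (T.par v))).card := by
  refine Finset.card_bij (fun w _ => T.par w) ?_ ?_ ?_
  · intro w hw
    simp only [Roles.cls, Finset.mem_filter, Finset.mem_univ, true_and] at hw ⊢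
    obtain ⟨hw1, hw2⟩ := hw
    have hpv := S.par v hv hp
    have hpw : T.par w ∉ U := by
      intro h
      have := S.top w hw1 h
      rw [hw2, hpv] at this
      simp at this
    have h3 := S.par w hw1 hpw
    rw [hw2, hpv] at h3
    exact ⟨hpw, (Option.some.inj h3).symm⟩
  · intro w hw w' hw' h
    simp only [Roles.cls, Finset.mem_filter, Finset.mem_univ, true_and] at hw hw'
    obtain ⟨hw1, hw2⟩ := hw
    obtain ⟨hw1', hw2'⟩ := hw'
    have hpv := S.par v hv hp
    have hpw : T.par w ∉ U := by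
      intro h
      have := S.top w hw1 h
      rw [hw2, hpv] at this
      simp at this
    exact S.inj w w' hw1 hw1' hpw h (hw2.trans hw2'.symm)
  · intro u hu
    simp only [Roles.cls, Finset.mem_filter, Finset.mem_univ, true_and] at hu
    obtain ⟨hu1, hu2⟩ := hu
    obtain ⟨w, hw1, hw2, hw3⟩ := S.surj v hv hp u hu1 hu2
    refine ⟨w, ?_, hw3⟩
    simp only [Roles.cls, Finset.mem_filter, Finset.mem_univ, true_and]
    exact ⟨hw1, hw2⟩

/-- Transport of a role system along an equivalence. -/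
def Roles.map {R' : Type} (S : Roles T U R) (e : R ≃ R') : Roles T U R' where
  role v := e (S.role v)
  prl ρ := (S.prl (e.symm ρ)).map e
  sgl ρ := S.sgl (e.symm ρ)
  ncl ρ := S.ncl (e.symm ρ)
  top v h1 h2 := by simp [S.top v h1 h2]
  par v h1 h2 := by simp [S.par v h1 h2]
  sg v h := by simp [S.sg v h]
  nc v h := by simp [S.nc v h]
  inj v w h1 h2 h3 h4 h5 := S.inj v w h1 h2 h3 h4 (e.injective h5)
  surj v h1 h2 u hu h := by
    obtain ⟨w, h3, h4, h5⟩ := S.surj v h1 h2 u hu (e.injective h)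
    exact ⟨w, h3, by rw [h4], h5⟩

end Rl

namespace RLaux

variable {n : ℕ}

lemma rt_top (T : PTree n) (U : Finset (Fin n)) {v : Fin n} (h : T.par v ∈ U) :
    T.rt U v = v := by
  rw [PTree.rt, dif_pos (Or.inr (Or.inr h))]

lemma rt_par (T : PTree n) (U : Finset (Fin n)) {v : Fin n} (h0 : (v : ℕ) ≠ 0) (h1 : v ∉ U)
    (h2 : T.par v ∉ U) : T.rt U v = T.rt U (T.par v) := by
  rw [PTree.rt, dif_neg (by tauto)]

/-- The index of a vertex in its component. -/
def idx (T : PTree n) (U : Finset (Fin n)) (v : Fin n) : ℕ :=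
  (univ.filter fun w => w ∉ U ∧ T.rt U w = T.rt U v ∧ w < v).card

lemma idx_lt (T : PTree n) {U : Finset (Fin n)} {K : ℕ} (hG : T.Good U K) {v : Fin n}
    (hv : v ∉ U) : idx T U v < K := by
  refine lt_of_lt_of_le (Finset.card_lt_card ?_) (hG.small (T.rt U v))
  rw [Finset.ssubset_iff_of_subset]
  · refine ⟨v, ?_, ?_⟩
    · simp [hv]
    · simp
  · intro w hw
    simp only [Finset.mem_filter, Finset.mem_univ, true_and] at hw ⊢
    exact ⟨hw.1, hw.2.1⟩

lemma idx_mono (T : PTree n) {U : Finset (Fin n)} {v w : Fin n} (hv : v ∉ U)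
    (h : T.rt U v = T.rt U w) (hlt : v < w) : idx T U v < idx T U w := by
  refine Finset.card_lt_card ?_
  rw [Finset.ssubset_iff_of_subset]
  · refine ⟨v, ?_, ?_⟩
    · simp [hv, h, hlt]
    · simp
  · intro x hx
    simp only [Finset.mem_filter, Finset.mem_univ, true_and] at hx ⊢
    exact ⟨hx.1, hx.2.1.trans h, hx.2.2.trans hlt⟩

lemma idx_inj (T : PTree n) {U : Finset (Fin n)} {v w : Fin n} (hv : v ∉ U) (hw : w ∉ U)
    (h : T.rt U v = T.rt U w) (he : idx T U v = idx T U w) : v = w := by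
  rcases lt_trichotomy v w with h1 | h1 | h1
  · exact absurd he (idx_mono T hv h h1).ne
  · exact h1
  · exact absurd he (idx_mono T hw h.symm h1).ne'

/-- Reduction of a natural number to `Fin (K + 1)`. -/
def fi (K m : ℕ) : Fin (K + 1) := Fin.ofNat (K + 1) m

lemma fi_val {K m : ℕ} (h : m ≤ K) : ((fi K m : Fin (K + 1)) : ℕ) = m := by
  simp only [fi, Fin.val_ofNat]
  exact Nat.mod_eq_of_lt (by omega)

lemma fi_inj {K m m' : ℕ} (h : m ≤ K) (h' : m' ≤ K) (he : fi K m = fi K m') : m = m' := by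
  rw [← fi_val h, ← fi_val h', he]

/-- The entry of a vertex in the code. -/
def entry (T : PTree n) (U : Finset (Fin n)) (K Δ : ℕ) (v : Fin n) :
    Option (Fin (K + 1)) × Bool × Fin (Δ + 1) :=
  (if T.par v ∈ U then none else some (fi K (idx T U (T.par v))), T.sg v, fi Δ (T.nch v))

/-- The code of a component. -/
def code (T : PTree n) (U : Finset (Fin n)) (K Δ : ℕ) (z : Fin n) (k : Fin (K + 1)) :
    Option (Option (Fin (K + 1)) × Bool × Fin (Δ + 1)) :=
  if h : ∃ v, v ∉ U ∧ T.rt U v = z ∧ fi K (idx T U v) = k then some (entry T U K Δ h.choose)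
  else none

lemma code_eq (T : PTree n) {U : Finset (Fin n)} {K Δ : ℕ} (hG : T.Good U K) {v : Fin n}
    (hv : v ∉ U) : code T U K Δ (T.rt U v) (fi K (idx T U v)) = some (entry T U K Δ v) := by
  have h : ∃ w, w ∉ U ∧ T.rt U w = T.rt U v ∧ fi K (idx T U w) = fi K (idx T U v) :=
    ⟨v, hv, rfl, rfl⟩
  unfold code
  rw [dif_pos h]
  have hc := h.choose_spec
  have : h.choose = v := by
    apply idx_inj T hc.1 hv hc.2.1
    exact fi_inj (idx_lt T hG hc.1).le (idx_lt T hG hv).le hc.2.2
  rw [this]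

lemma code_some (T : PTree n) {U : Finset (Fin n)} {K Δ : ℕ} {z : Fin n} {k : Fin (K + 1)}
    {x : Option (Fin (K + 1)) × Bool × Fin (Δ + 1)} (h : code T U K Δ z k = some x) :
    ∃ v, v ∉ U ∧ T.rt U v = z ∧ fi K (idx T U v) = k ∧ x = entry T U K Δ v := by
  unfold code at h
  split_ifs at h with h1
  exact ⟨h1.choose, h1.choose_spec.1, h1.choose_spec.2.1, h1.choose_spec.2.2,
    (Option.some.inj h).symm⟩

/-- The type of roles. -/
abbrev RT (K Δ : ℕ) : Type :=
  (Fin (K + 1) → Option (Option (Fin (K + 1)) × Bool × Fin (Δ + 1))) × Fin (K + 1)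

/-- The role system. -/
def mk (T : PTree n) {U : Finset (Fin n)} {K Δ : ℕ} (hD : T.Deg Δ) (hG : T.Good U K) :
    Roles T U (RT K Δ) where
  role v := (code T U K Δ (T.rt U v), fi K (idx T U v))
  prl ρ := match ρ.1 ρ.2 with
    | some (some j, _, _) => some (ρ.1, j)
    | _ => none
  sgl ρ := match ρ.1 ρ.2 with
    | some (_, b, _) => b
    | none => true
  ncl ρ := match ρ.1 ρ.2 with
    | some (_, _, m) => (m : ℕ)
    | none => 0
  top v h1 h2 := by
    simp only [code_eq T hG h1, entry, h2, if_true]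
  par v h1 h2 := by
    have h0 : (v : ℕ) ≠ 0 := fun h => h1 (hG.root v h)
    simp only [code_eq T hG h1, entry, h2, if_false]
    rw [rt_par T U h0 h1 h2]
  sg v h := by
    simp only [code_eq T hG h, entry]
  nc v h := by
    simp only [code_eq T hG h, entry]
    exact fi_val (hD v)
  inj v w h1 h2 h3 h4 h5 := by
    have h0 : (v : ℕ) ≠ 0 := fun h => h1 (hG.root v h)
    have h0' : (w : ℕ) ≠ 0 := fun h => h2 (hG.root w h)
    apply idx_inj T h1 h2
    · rw [rt_par T U h0 h1 h3, rt_par T U h0' h2 (h4 ▸ h3), h4]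
    · exact fi_inj (idx_lt T hG h1).le (idx_lt T hG h2).le (Prod.mk.inj h5).2
  surj v h1 h2 u hu h := by
    have h0 : (v : ℕ) ≠ 0 := fun h => h1 (hG.root v h)
    obtain ⟨ha, hb⟩ := Prod.mk.inj h
    rw [← rt_par T U h0 h1 h2] at ha
    have hc := code_eq T (Δ := Δ) hG h1
    rw [← ha] at hc
    obtain ⟨w, hw, hw1, hw2, hw3⟩ := code_some T hc
    have hw0 : (w : ℕ) ≠ 0 := fun h => hw (hG.root w h)
    refine ⟨w, hw, ?_, ?_⟩
    · show (code T U K Δ (T.rt U w), fi K (idx T U w)) = (code T U K Δ (T.rt U v), fi K (idx T U v))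
      rw [hw1, hw2, ha]
    · have he := (Prod.mk.inj hw3).1
      rw [if_neg h2] at he
      have hpw : T.par w ∉ U := by
        intro hp
        rw [if_pos hp] at he
        exact absurd he (by simp)
      rw [if_neg hpw] at he
      have he2 := Option.some.inj he
      rw [← hb] at he2
      apply idx_inj T hpw hu
      · rw [← rt_par T U hw0 hw hpw, hw1]
      · exact fi_inj (idx_lt T hG hpw).le (idx_lt T hG hu).le he2.symm

end RLaux

theorem exists_roles (Δ K : ℕ) : ∃ M : ℕ, ∀ (n : ℕ) (T : PTree n) (U : Finset (Fin n)),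
    T.Deg Δ → T.Good U K → Nonempty (Roles T U (Fin M)) :=
  ⟨Fintype.card (RLaux.RT K Δ), fun _ T _ hD hG =>
    ⟨(RLaux.mk T hD hG).map (Fintype.equivFin _)⟩⟩

end

end OT
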